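import Pool.Agent.H91.TC.Basic

/-!
# Row TUB of the board `tsc_modules` (MP_43af95_an)
-/

set_option autoImplicit false

open Set Function Topology Metric Filter
open scoped Manifold

namespace Pool.Agent.H35.TSC

open Pool.Agent.H88.CL Pool.Agent.H88.CM Pool.Agent.H91.TC

theorem round_lat (k : ℕ) (v : E k) : ∃ z ∈ Lat k, ‖v - z‖ ≤ √(k : ℝ) := by
  refine ⟨WithLp.toLp 2 (fun i => ((round (v i) : ℤ) : ℝ)), fun i => ⟨round (v i), rfl⟩, ?_⟩
  rw [EuclideanSpace.norm_eq]
  apply Real.sqrt_le_sqrt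
  have h1 : ∀ i : Fin k, ‖(v - WithLp.toLp 2 (fun i => ((round (v i) : ℤ) : ℝ))) i‖ ^ 2 ≤ 1 := by
    intro i
    have h2 : ‖(v - WithLp.toLp 2 (fun i => ((round (v i) : ℤ) : ℝ))) i‖ ≤ 1 / 2 := by
      have := abs_sub_round (v i)
      simpa using this
    have h3 := norm_nonneg ((v - WithLp.toLp 2 (fun i => ((round (v i) : ℤ) : ℝ))) i)
    nlinarith
  have h4 := Finset.sum_le_sum (fun i (_ : i ∈ (Finset.univ : Finset (Fin k))) => h1 i)
  simpa using h4

theorem pf_TUB : T_TUB := by
  intro n d k M _ _ _ _ a x hA hV hst κ e r hκ hx h0 hr htgt hact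
  obtain ⟨V, hVn, hVl⟩ := hV
  have ha : Continuous (fun p : E k × M => a p.1 p.2) := hA.c2.continuous
  have e0 : e.symm ((0 : E d), (0 : E k)) = κ x := by
    have h1 : ((0 : E d), (0 : E k)) = e (κ x) := by rw [h0]; rfl
    rw [h1, e.symm_apply_apply]
  have s0 : sg κ e (0 : E d) = x := by
    unfold sg
    rw [e0, κ.left_inv hx]
  have hs : Tendsto (sg κ e) (𝓝 (0 : E d)) (𝓝 x) := by
    have h1 : ContinuousAt κ.symm (e.symm ((0 : E d), (0 : E k))) := by
      rw [e0]
      exact κ.continuousAt_symm (κ.map_source hx)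
    have h2 : Tendsto (fun u : E d => e.symm (u, (0 : E k))) (𝓝 (0 : E d))
        (𝓝 (e.symm ((0 : E d), (0 : E k)))) := by
      have h3 : Continuous (fun u : E d => e.symm (u, (0 : E k))) :=
        e.symm.continuous.comp (continuous_id.prodMk continuous_const)
      exact h3.tendsto 0
    have h4 := Tendsto.comp h1.tendsto h2
    have h5 : κ.symm (e.symm ((0 : E d), (0 : E k))) = x := s0
    rw [h5] at h4
    exact h4
  -- the slice is in `V`
  obtain ⟨r1, hr1, hV1⟩ := Metric.eventually_nhds_iff.1 (hs.eventually_mem hVn)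
  -- local injectivity
  have key : ∀ v ∈ closedBall (0 : E k) (√(k : ℝ)),
      ∀ᶠ z : (E d × E d) × E k in 𝓝 (((0 : E d), (0 : E d)), v),
        (a z.2 (sg κ e z.1.1) = sg κ e z.1.2 → z.1.1 = z.1.2 ∧ z.2 ∈ Lat k) := by
    intro v _
    have p1 : Tendsto (fun z : (E d × E d) × E k => z.1.1) (𝓝 (((0 : E d), (0 : E d)), v))
        (𝓝 0) := (continuous_fst.comp continuous_fst).tendsto' _ _ rfl
    have p2 : Tendsto (fun z : (E d × E d) × E k => z.1.2) (𝓝 (((0 : E d), (0 : E d)), v))
        (𝓝 0) := (continuous_snd.comp continuous_fst).tendsto' _ _ rfl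
    have p3 : Tendsto (fun z : (E d × E d) × E k => z.2) (𝓝 (((0 : E d), (0 : E d)), v))
        (𝓝 v) := continuous_snd.tendsto' _ _ rfl
    have t1 : Tendsto (fun z : (E d × E d) × E k => sg κ e z.1.1)
        (𝓝 (((0 : E d), (0 : E d)), v)) (𝓝 x) := hs.comp p1
    have t2 : Tendsto (fun z : (E d × E d) × E k => sg κ e z.1.2)
        (𝓝 (((0 : E d), (0 : E d)), v)) (𝓝 x) := hs.comp p2
    have t3 : Tendsto (fun z : (E d × E d) × E k => a z.2 (sg κ e z.1.1))
        (𝓝 (((0 : E d), (0 : E d)), v)) (𝓝 (a v x)) := by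
      have h1 := (ha.tendsto (v, x)).comp (p3.prodMk_nhds t1)
      exact h1
    by_cases hv : a v x = x
    · have hvL := hst v hv
      have b1 : ∀ᶠ z : (E d × E d) × E k in 𝓝 (((0 : E d), (0 : E d)), v), ‖z.1.1‖ < r := by
        have := p1.norm
        rw [norm_zero] at this
        exact this.eventually_lt_const hr
      have b2 : ∀ᶠ z : (E d × E d) × E k in 𝓝 (((0 : E d), (0 : E d)), v), ‖z.1.2‖ < r := by
        have := p2.norm
        rw [norm_zero] at this
        exact this.eventually_lt_const hr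
      have b3 : ∀ᶠ z : (E d × E d) × E k in 𝓝 (((0 : E d), (0 : E d)), v), ‖z.2 - v‖ < r := by
        have := (p3.sub_const v).norm
        rw [sub_self, norm_zero] at this
        exact this.eventually_lt_const hr
      filter_upwards [t1.eventually_mem hVn, b1, b2, b3] with z h1 h2 h3 h4 h5
      have h6 : a z.2 (sg κ e z.1.1) = a (z.2 - v) (sg κ e z.1.1) := by
        calc a z.2 (sg κ e z.1.1) = a ((z.2 - v) + v) (sg κ e z.1.1) := by rw [sub_add_cancel]
          _ = a (z.2 - v) (a v (sg κ e z.1.1)) := hA.add _ _ _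
          _ = a (z.2 - v) (sg κ e z.1.1) := by rw [hVl _ h1 v hvL]
      rw [h6, ← hact _ _ h2.le h4.le] at h5
      have h7 := κ.symm.injOn (htgt _ _ h2.le h4.le)
        (htgt z.1.2 0 h3.le (by rw [norm_zero]; exact hr.le)) h5
      have h8 := Prod.ext_iff.1 (e.symm.injective h7)
      refine ⟨h8.1, ?_⟩
      have h9 : z.2 - v = 0 := h8.2
      rw [sub_eq_zero.1 h9]
      exact hvL
    · have h0 := (t3.prodMk_nhds t2).eventually_mem
        (isClosed_diagonal.isOpen_compl.mem_nhds
          (show (a v x, x) ∈ (Set.diagonal M)ᶜ from fun h => hv h))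
      filter_upwards [h0] with z h1 h2
      exact absurd h2 (fun h => h1 h)
  have key2 := (isCompact_closedBall (0 : E k) (√(k : ℝ))).eventually_forall_of_forall_eventually
    (P := fun (q : E d × E d) (v : E k) =>
      (a v (sg κ e q.1) = sg κ e q.2 → q.1 = q.2 ∧ v ∈ Lat k)) key
  obtain ⟨r2, hr2, hI⟩ := Metric.eventually_nhds_iff.1 key2
  have m0 : 0 < min (min r (1 / 4)) (min (r1 / 2) (r2 / 2)) := by positivity
  have mr : min (min r (1 / 4)) (min (r1 / 2) (r2 / 2)) ≤ r :=
    (min_le_left _ _).trans (min_le_left _ _)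
  have mq : min (min r (1 / 4)) (min (r1 / 2) (r2 / 2)) ≤ 1 / 4 :=
    (min_le_left _ _).trans (min_le_right _ _)
  have m1 : min (min r (1 / 4)) (min (r1 / 2) (r2 / 2)) < r1 :=
    ((min_le_right _ _).trans (min_le_left _ _)).trans_lt (by linarith)
  have m2 : min (min r (1 / 4)) (min (r1 / 2) (r2 / 2)) < r2 :=
    ((min_le_right _ _).trans (min_le_right _ _)).trans_lt (by linarith)
  generalize min (min r (1 / 4)) (min (r1 / 2) (r2 / 2)) = ρ at m0 mr mq m1 m2
  have per : ∀ u : E d, ‖u‖ ≤ ρ → ∀ z ∈ Lat k, a z (sg κ e u) = sg κ e u := by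
    intro u hu z hz
    refine hVl _ (hV1 ?_) z hz
    rw [dist_zero_right]
    exact hu.trans_lt m1
  refine ⟨ρ, hκ, hx, h0, m0, mq, fun u v hu hv => htgt u v (hu.trans mr) (hv.trans mr),
    fun u v hu hv => hact u v (hu.trans mr) (hv.trans mr), ?_, per⟩
  intro u u' v hu hu' hv
  obtain ⟨z, hz, hvz⟩ := round_lat k v
  have h1 : a (v - z) (sg κ e u) = sg κ e u' := by
    calc a (v - z) (sg κ e u) = a (v - z) (a z (sg κ e u)) := by rw [per u hu z hz]
      _ = a ((v - z) + z) (sg κ e u) := (hA.add _ _ _).symm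
      _ = a v (sg κ e u) := by rw [sub_add_cancel]
      _ = sg κ e u' := hv
  have h2 : dist ((u, u') : E d × E d) ((0 : E d), (0 : E d)) < r2 := by
    rw [Prod.dist_eq, max_lt_iff]
    constructor
    · show dist u 0 < r2
      rw [dist_zero_right]
      exact hu.trans_lt m2
    · show dist u' 0 < r2
      rw [dist_zero_right]
      exact hu'.trans_lt m2
  have h3 := hI h2 (v - z) (by rw [mem_closedBall, dist_zero_right]; exact hvz) h1
  refine ⟨h3.1, ?_⟩
  have h4 := add_mem h3.2 hz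
  rwa [sub_add_cancel] at h4

end Pool.Agent.H35.TSC
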